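import Pool.Agent.H533.QM.Least

/-!
# The least primes of the residue classes modulo `d`, on the scale `φ(d) log d`: full support,
# for every modulus

Let `F = φ(d) log d`; the average distance of the primes of a reduced class modulo `d`, near `d`, is
about `F`.  Let windows `(α i F, (α i + ε) F]`, `i < k`, be given in `(0, Λ F]`.  For every large
modulus `d`, a positive proportion of the reduced residue classes `a` modulo `d` have at least `m`
primes in at least a quarter of the windows, and no other prime up to `Λ F`.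

For one window: for all `0 ≤ A < B ≤ Λ` and all `m` a positive proportion of the classes contain no
prime up to `A F`, at least `m` primes in `(A F, B F]` and no prime in `(B F, Λ F]`.  In particular
`p(d, a)`, the least prime of the class, lies in `(A F, B F]` for a positive proportion of the
classes: every limit law of `p(d, a) / (φ(d) log d)`, along any sequence of moduli, has full support.
For the largest least prime `p(d)` it follows that `p(d) / (φ(d) log d) → ∞` through ALL `d`.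
-/

set_option autoImplicit false

open Finset

namespace Pool.Agent.Results.MP_458f0b_nt.FullSupportEveryModulus

/-- the scale `φ(d) log d` -/
noncomputable def F (d : ℕ) : ℝ := (Nat.totient d : ℝ) * Real.log d

/-- the least prime congruent to `a` modulo `d` -/
noncomputable def lp (d a : ℕ) : ℕ := sInf {p : ℕ | p.Prime ∧ p ≡ a [MOD d]}

/-- `p(d)`: the largest of the least primes of the reduced classes modulo `d` -/
noncomputable def maxlp (d : ℕ) : ℕ := ((range d).filter (fun a => a.Coprime d)).sup (lp d)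

open Classical in
theorem maxlp_tendsto
    (H : ∀ A B : ℝ, 0 ≤ A → A < B → ∃ c : ℝ, 0 < c ∧ ∃ d₀ : ℕ, ∀ d : ℕ, d₀ ≤ d →
      c * (Nat.totient d : ℝ) ≤ (((range d).filter (fun a => a.Coprime d ∧
        A * F d < lp d a ∧ (lp d a : ℝ) ≤ B * F d)).card : ℝ)) :
    Filter.Tendsto (fun d => (maxlp d : ℝ) / F d) Filter.atTop Filter.atTop := by
  rw [Filter.tendsto_atTop]
  intro A
  obtain ⟨c, hc, d₀, h⟩ := H (max A 0) (max A 0 + 1) (le_max_right _ _) (by linarith)
  filter_upwards [Filter.eventually_ge_atTop (max d₀ 2)] with d hd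
  have hd0 : d₀ ≤ d := le_trans (le_max_left _ _) hd
  have hd2 : 2 ≤ d := le_trans (le_max_right _ _) hd
  have htot : 0 < (Nat.totient d : ℝ) := by exact_mod_cast Nat.totient_pos.2 (by omega)
  have hlog : 0 < Real.log (d : ℝ) := Real.log_pos (by exact_mod_cast (by omega : 1 < d))
  have hF : 0 < F d := mul_pos htot hlog
  have h1 := h d hd0
  have h2 : (0 : ℝ) < (((range d).filter (fun a => a.Coprime d ∧
      max A 0 * F d < lp d a ∧ (lp d a : ℝ) ≤ (max A 0 + 1) * F d)).card : ℝ) :=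
    lt_of_lt_of_le (mul_pos hc htot) h1
  obtain ⟨a, ha⟩ := card_pos.1 (by exact_mod_cast h2)
  rw [mem_filter] at ha
  have h3 : lp d a ≤ maxlp d := Finset.le_sup (f := lp d)
    (mem_filter.2 ⟨ha.1, ha.2.1⟩ : a ∈ (range d).filter (fun a => a.Coprime d))
  have h4 : (lp d a : ℝ) ≤ (maxlp d : ℝ) := by exact_mod_cast h3
  rw [le_div_iff₀ hF]
  have h5 : A * F d ≤ max A 0 * F d := mul_le_mul_of_nonneg_right (le_max_left _ _) hF.le
  linarith [ha.2.2.1]

open Classical in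
theorem result :
    (∀ (k m : ℕ) (α : Fin k → ℝ) (ε Λ : ℝ), 0 < ε → 0 < Λ → (∀ i, 0 ≤ α i ∧ α i + ε ≤ Λ) →
      ∃ c : ℝ, 0 < c ∧ ∃ d₀ : ℕ, ∀ d : ℕ, d₀ ≤ d →
      c * (Nat.totient d : ℝ) ≤ (((range d).filter (fun a => a.Coprime d ∧
        k ≤ 4 * ((univ : Finset (Fin k)).filter (fun i => m ≤
          ((Icc 1 ⌊Λ * F d⌋₊).filter (fun p => p.Prime ∧ p ≡ a [MOD d] ∧
            α i * F d < p ∧ (p : ℝ) ≤ (α i + ε) * F d)).card)).card ∧
        ∀ p : ℕ, p.Prime → p ≡ a [MOD d] → (p : ℝ) ≤ Λ * F d →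
          ∃ i, α i * F d < p ∧ (p : ℝ) ≤ (α i + ε) * F d)).card : ℝ)) ∧
    (∀ A B : ℝ, 0 ≤ A → A < B → ∃ c : ℝ, 0 < c ∧ ∃ d₀ : ℕ, ∀ d : ℕ, d₀ ≤ d →
      c * (Nat.totient d : ℝ) ≤ (((range d).filter (fun a => a.Coprime d ∧
        A * F d < lp d a ∧ (lp d a : ℝ) ≤ B * F d)).card : ℝ)) ∧
    Filter.Tendsto (fun d => (maxlp d : ℝ) / F d) Filter.atTop Filter.atTop := by
  have main : ∀ (k m : ℕ) (α : Fin k → ℝ) (ε Λ : ℝ), 0 < ε → 0 < Λ →
      (∀ i, 0 ≤ α i ∧ α i + ε ≤ Λ) →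
      ∃ c : ℝ, 0 < c ∧ ∃ d₀ : ℕ, ∀ d : ℕ, d₀ ≤ d →
      c * (Nat.totient d : ℝ) ≤ (((range d).filter (fun a => a.Coprime d ∧
        k ≤ 4 * ((univ : Finset (Fin k)).filter (fun i => m ≤
          ((Icc 1 ⌊Λ * F d⌋₊).filter (fun p => p.Prime ∧ p ≡ a [MOD d] ∧
            α i * F d < p ∧ (p : ℝ) ≤ (α i + ε) * F d)).card)).card ∧
        ∀ p : ℕ, p.Prime → p ≡ a [MOD d] → (p : ℝ) ≤ Λ * F d →
          ∃ i, α i * F d < p ∧ (p : ℝ) ≤ (α i + ε) * F d)).card : ℝ) :=
    fun k m α ε Λ hε hΛ hα => Pool.Agent.H533.QM.windows k m α ε Λ hε hΛ hα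
  refine ⟨main, ?_⟩
  have second : ∀ A B : ℝ, 0 ≤ A → A < B → ∃ c : ℝ, 0 < c ∧ ∃ d₀ : ℕ, ∀ d : ℕ, d₀ ≤ d →
      c * (Nat.totient d : ℝ) ≤ (((range d).filter (fun a => a.Coprime d ∧
        A * F d < lp d a ∧ (lp d a : ℝ) ≤ B * F d)).card : ℝ) := by
   intro A B hA hAB
   obtain ⟨c, hc, d₀, h⟩ := main 1 1 (fun _ => A) (B - A) B (by linarith) (by linarith)
     (fun _ => ⟨hA, by linarith⟩)
   refine ⟨c, hc, d₀, fun d hd => (h d hd).trans (Nat.cast_le.2 (card_le_card ?_))⟩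
   intro a ha
   rw [mem_filter] at ha ⊢
   obtain ⟨ha1, ha2, ha3, ha4⟩ := ha
   refine ⟨ha1, ha2, ?_⟩
   have h1 : 0 < ((univ : Finset (Fin 1)).filter (fun _ => 1 ≤
       ((Icc 1 ⌊B * F d⌋₊).filter (fun p => p.Prime ∧ p ≡ a [MOD d] ∧
         A * F d < p ∧ (p : ℝ) ≤ (A + (B - A)) * F d)).card)).card := by omega
   obtain ⟨i, hi⟩ := card_pos.1 h1
   rw [mem_filter] at hi
   obtain ⟨p, hp⟩ := card_pos.1 hi.2
   rw [mem_filter] at hp
   obtain ⟨-, hp1, hp2, hp3, hp4⟩ := hp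
   rw [add_sub_cancel] at hp4
   have hne : {p : ℕ | p.Prime ∧ p ≡ a [MOD d]}.Nonempty := ⟨p, hp1, hp2⟩
   have hmem := Nat.sInf_mem hne
   have hle : lp d a ≤ p := Nat.sInf_le ⟨hp1, hp2⟩
   have hleB : (lp d a : ℝ) ≤ B * F d := by
     have : (lp d a : ℝ) ≤ p := by exact_mod_cast hle
     linarith
   obtain ⟨-, h5, -⟩ := ha4 (lp d a) hmem.1 hmem.2 hleB
   exact ⟨h5, hleB⟩
  exact ⟨second, maxlp_tendsto second⟩

end Pool.Agent.Results.MP_458f0b_nt.FullSupportEveryModulus
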