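import Mathlib
import Pool.Agent.H524.ProgE
import Pool.Agent.H524.ProgF

/-!
The largest least prime in the residue classes modulo a fourth power, in the polynomial ring over a
finite field with `q = 2 ^ (2 k + 1)` elements.

The norm of a nonzero polynomial `M` over `K` is `|M| = q ^ deg M`. Congruence of `P` and `a` modulo
`N ^ 4` is written `N ^ 4 ∣ P - a`, and `φ(M)`, the number of reduced residue classes modulo `M`, is
`Nat.card (K[X] ⧸ Ideal.span {M})ˣ`.
-/

open Polynomial

/-- Let `K` be a field with `q = 2 ^ (2 k + 1)` elements.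

(1) Let `N` be a monic polynomial of odd degree over `K` such that `deg N < q ^ deg R` for all
irreducible factors `R` of `N` (for instance, `N` irreducible of odd degree), and let `M = N ^ 4`.
There is a reduced residue class modulo `M` all of whose irreducible elements `P` satisfy
`|P| ≥ |M| * (log |M|) ^ 2 / (100 * (log q) ^ 2)`.

(2) Let `c < (q - 1) ^ 2 / (16 * (log q) ^ 2)`. For infinitely many odd numbers `ν` the following
holds for all monic irreducible polynomials `N` of degree `ν`, with `M = N ^ 4`: there is a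
reduced residue class modulo `M` all of whose irreducible elements `P` satisfy
`|P| > c * |M| * (log |M|) ^ 2`.

(3) Let `q ≥ 32`. There is an `ε > 0` such that for infinitely many monic `M` there is a reduced
residue class modulo `M` all of whose irreducible elements `P` satisfy
`|P| > (1 + ε) * φ(M) * (log |M|) ^ 2`.

(4) Let `q ≥ 128`. There is an `ε > 0` such that for infinitely many monic `M` there is a reduced
residue class modulo `M` all of whose irreducible elements `P` satisfy
`|P| > (1 + ε) * ((q - 1) / log q) * φ(M) * (log |M|) ^ 2`. -/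
theorem Pool.Agent.Results.MP_458f0b_nt.FunctionFieldFourthPowers.result
    (K : Type*) [Field K] [Fintype K] (k : ℕ) (hK : Fintype.card K = 2 ^ (2 * k + 1)) :
    (∀ N : K[X], N.Monic → Odd N.natDegree →
      (∀ R : K[X], Irreducible R → R ∣ N → N.natDegree < Fintype.card K ^ R.natDegree) →
      ∃ a : K[X], IsCoprime a N ∧ ∀ P : K[X], Irreducible P → N ^ 4 ∣ P - a →
        1 / (100 * Real.log (Fintype.card K : ℝ) ^ 2) *
          ((Fintype.card K : ℝ) ^ (N ^ 4).natDegree *
            Real.log ((Fintype.card K : ℝ) ^ (N ^ 4).natDegree) ^ 2) ≤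
        (Fintype.card K : ℝ) ^ P.natDegree) ∧
    (∀ c : ℝ, c < ((Fintype.card K : ℝ) - 1) ^ 2 / (16 * Real.log (Fintype.card K : ℝ) ^ 2) →
      ∀ B : ℕ, ∃ ν : ℕ, B ≤ ν ∧ Odd ν ∧
        ∀ N : K[X], N.Monic → Irreducible N → N.natDegree = ν →
          ∃ a : K[X], IsCoprime a N ∧ ∀ P : K[X], Irreducible P → N ^ 4 ∣ P - a →
            c * ((Fintype.card K : ℝ) ^ (N ^ 4).natDegree *
              Real.log ((Fintype.card K : ℝ) ^ (N ^ 4).natDegree) ^ 2) <
            (Fintype.card K : ℝ) ^ P.natDegree) ∧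
    (32 ≤ Fintype.card K → ∃ ε : ℝ, 0 < ε ∧ ∀ B : ℕ, ∃ M : K[X], M.Monic ∧ B ≤ M.natDegree ∧
      ∃ a : K[X], IsCoprime a M ∧ ∀ P : K[X], Irreducible P → M ∣ P - a →
        (1 + ε) * ((Nat.card (K[X] ⧸ Ideal.span {M})ˣ : ℝ) *
          Real.log ((Fintype.card K : ℝ) ^ M.natDegree) ^ 2) <
        (Fintype.card K : ℝ) ^ P.natDegree) ∧
    (128 ≤ Fintype.card K → ∃ ε : ℝ, 0 < ε ∧ ∀ B : ℕ, ∃ M : K[X], M.Monic ∧ B ≤ M.natDegree ∧
      ∃ a : K[X], IsCoprime a M ∧ ∀ P : K[X], Irreducible P → M ∣ P - a →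
        (1 + ε) * (((Fintype.card K : ℝ) - 1) / Real.log (Fintype.card K : ℝ)) *
          ((Nat.card (K[X] ⧸ Ideal.span {M})ˣ : ℝ) *
          Real.log ((Fintype.card K : ℝ) ^ M.natDegree) ^ 2) <
        (Fintype.card K : ℝ) ^ P.natDegree) :=
  ⟨fun N hN hNo hR => Pool.Agent.H524.prog_all k hK N hN hNo hR,
    fun c hc B => Pool.Agent.H524.prog_limsup k hK c hc B,
    fun h32 => Pool.Agent.H524.prog_not_asymp k hK h32,
    fun h128 => Pool.Agent.H524.prog_not_model k hK h128⟩
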