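import Mathlib
import Pool.Agent.H482.PP2.Main
import Pool.Agent.H482.WT.Ls
import Pool.Agent.H482.WT.Tot
import Pool.Agent.H482.WT.Gau
import Pool.Agent.H482.WT.Tup
import Pool.Agent.H482.WT.Rep
import Pool.Agent.H482.WT.Mom

/-!
# Products of exactly `k` primes of a prescribed set in every class, for almost all moduli

Let `2 ≤ y ≤ x`, `u = log x / log y`, and let `P` be any set of primes in `(y ^ θ, y]`.  There is a set
`F` of at most `exp (C u log (u + 1))` integers `f ≥ 2` such that for all moduli `q ≤ x` divisible by no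
element of `F` and all `k ≥ C u` the products of exactly `k` primes of `P` are equidistributed in the
reduced classes modulo `q`, when they are weighted with `1 / (p₁ ⋯ p_k)`, with the error `η ^ k`.  In
particular, if the sum of `1 / p` over `P` is larger than `2 η`, every reduced class modulo `q` contains
a product of exactly `k` primes of `P`.
-/

set_option autoImplicit false

namespace Pool.Agent.Results.MP_458f0b_nt.ProductsInEveryClass

open Finset

/-- The sum of `1 / p` over `P`. -/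
noncomputable def w (P : Finset ℕ) : ℝ := ∑ p ∈ P, 1 / (p : ℝ)

/-- The elements of `P` which are coprime to `q`. -/
def away (P : Finset ℕ) (q : ℕ) : Finset ℕ := P.filter (fun p => p.Coprime q)

open Classical in
/-- The sum of `1 / (p₁ ⋯ p_k)` over the `k`-tuples of elements of `P` with product congruent to `a`
modulo `q`. -/
noncomputable def tuples (q k : ℕ) (P : Finset ℕ) (a : (ZMod q)ˣ) : ℝ :=
  ∑ v ∈ (Fintype.piFinset (fun _ : Fin k => P)).filter
    (fun v => ((∏ i, v i : ℕ) : ZMod q) = a), ∏ i, 1 / (v i : ℝ)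

/-- **Main theorem.** -/
theorem result (θ η : ℝ) (hθ : 0 < θ) (hη : 0 < η) : ∃ C : ℝ, 0 < C ∧
    ∀ x y : ℕ, 2 ≤ y → y ≤ x → ∀ P : Finset ℕ, (∀ p ∈ P, p.Prime ∧ (y : ℝ) ^ θ < p ∧ p ≤ y) →
      ∃ F : Finset ℕ,
        (F.card : ℝ) ≤ Real.exp (C * (Real.log x / Real.log y) *
          Real.log (Real.log x / Real.log y + 1)) ∧
        (∀ f ∈ F, 2 ≤ f) ∧
        ∀ q : ℕ, 1 ≤ q → q ≤ x → (∀ f ∈ F, ¬ f ∣ q) →
          w P ≤ w (away P q) + η ∧
          ∀ k : ℕ, C * (Real.log x / Real.log y) ≤ k → ∀ a : (ZMod q)ˣ,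
            |(Nat.totient q : ℝ) * tuples q k (away P q) a - w (away P q) ^ k| ≤ η ^ k ∧
            (2 * η < w P → ∃ v : Fin k → ℕ, (∀ i, v i ∈ P) ∧ ((∏ i, v i : ℕ) : ZMod q) = a) := by
  classical
  obtain ⟨C, hC, h⟩ := Pool.Agent.H482.PP2.exists_F
    (Pool.Agent.H482.WT.mom (Pool.Agent.H482.WT.lsr Pool.Agent.H482.WT.tot Pool.Agent.H482.WT.gau)
      Pool.Agent.H482.WT.tup Pool.Agent.H482.WT.rep) θ (min η 1) hθ (lt_min hη one_pos) (min_le_right _ _)
  refine ⟨C, hC, fun x y hy hyx P hP => ?_⟩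
  have hPP : P ⊆ Pool.Agent.H482.WT.PR ⌊(y : ℝ) ^ θ⌋₊ y := by
    intro p hp
    obtain ⟨h1, h2, h3⟩ := hP p hp
    unfold Pool.Agent.H482.WT.PR
    rw [mem_filter, mem_Ioc]
    refine ⟨⟨?_, h3⟩, h1⟩
    rw [Nat.floor_lt (by positivity)]
    exact h2
  obtain ⟨F, hF1, hF2, hF3⟩ := h x y hy hyx P hPP
  refine ⟨F, hF1, hF2, fun q hq hqx hqF => ?_⟩
  obtain ⟨h1, h2⟩ := hF3 q hq hqx hqF
  have h1' : w P ≤ w (away P q) + min η 1 := h1
  have hmin : min η 1 ≤ η := min_le_left _ _
  refine ⟨by linarith, fun k hk a => ?_⟩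
  have h3 : |(Nat.totient q : ℝ) * tuples q k (away P q) a - w (away P q) ^ k| ≤
      (min η 1) ^ k := h2 k hk a
  have hm0 : 0 < min η 1 := lt_min hη one_pos
  refine ⟨h3.trans (pow_le_pow_left₀ hm0.le hmin k), fun hw => ?_⟩
  obtain ⟨hly, hu1, -, -⟩ := Pool.Agent.H482.WT.base_facts hy hyx
  have hk1 : 1 ≤ k := by
    by_contra hcon
    have hk0 : k = 0 := by omega
    rw [hk0, Nat.cast_zero] at hk
    have : 0 < C * (Real.log x / Real.log y) := mul_pos hC (by linarith)
    linarith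
  have hwq : min η 1 < w (away P q) := by linarith
  have h4 : (min η 1) ^ k < w (away P q) ^ k := pow_lt_pow_left₀ hwq hm0.le (by omega)
  have h5 : 0 < (Nat.totient q : ℝ) * tuples q k (away P q) a := by
    have := (abs_le.1 h3).1
    linarith
  have h6 : tuples q k (away P q) a ≠ 0 := by
    intro h0
    rw [h0, mul_zero] at h5
    exact lt_irrefl _ h5
  unfold tuples at h6
  obtain ⟨v, hv, -⟩ := exists_ne_zero_of_sum_ne_zero h6
  rw [mem_filter, Fintype.mem_piFinset] at hv
  refine ⟨v, fun i => ?_, hv.2⟩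
  have h7 := hv.1 i
  unfold away at h7
  exact (mem_filter.1 h7).1

end Pool.Agent.Results.MP_458f0b_nt.ProductsInEveryClass
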