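import Mathlib
import Pool.Agent.H532.WG.Final2

/-!
# The largest least element of a progression in the random sieve model

In the model of Banks, Ford and Tao (Large prime gaps and probabilistic models, Invent. Math. 2023)
the primes are replaced by the random set `R` of the integers `n` which are outside the random
residue class `a_p` modulo `p` for all primes `p ≤ z(n)`, `∏_{p ≤ z(n)} (1 - 1/p) ≈ 1 / log n`.
For a prime `d` let `p_R(d)` be the largest, over the classes `b` modulo `d` other than `a_d`, of the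
least element of `R` in the class `b`. Wagstaff proposed `p(d) ∼ φ(d) (log d)²` for the primes on
the ground of independence. In the model this is false: almost surely

  `p_R(d) > (1 + c) φ(d) (log d)²`

for all primes `d` outside a set with at most `x / (log x) ^ 12` elements in `(x, 2 x]`; here
`c > 0` is an absolute constant. More precisely, for these `d` and uniformly for
`log d (loglog d)³ ≤ U ≤ C (log d)²` the number of the classes modulo `d` without elements of `R`
up to `d U` is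

  `d exp (- (m + o(1)) U / log d)`,

down to the last class, where `m = m(U, d)` is the normalised minimum of the interval sieve: the
smallest number of the integers without prime factors up to `U / log d` in an interval of length
`U`, divided by its expected value.
-/

open Finset MeasureTheory ProbabilityTheory Filter
open scoped ENNReal Topology

namespace Pool.Agent.Results.MP_458f0b_nt.WagstaffFailsInTheModel

/-- `A p`, `p` prime, are independent random variables and `A p` is uniformly distributed on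
`{0, …, p - 1}`. -/
structure RandomClasses {Ω : Type} [MeasurableSpace Ω] (μ : Measure Ω) (A : ℕ → Ω → ℕ) :
    Prop where
  meas : ∀ p, Measurable (A p)
  indep : iIndepFun (fun p : Nat.Primes => A p) μ
  unif : ∀ p : ℕ, p.Prime → ∀ r < p, μ {ω | A p ω = r} = (p : ℝ≥0∞)⁻¹

/-- `V z = ∏_{p ≤ z} (1 - 1 / p)`. -/
noncomputable def V (z : ℕ) : ℝ := ∏ p ∈ (range (z + 1)).filter Nat.Prime, (1 - 1 / (p : ℝ))

/-- The integers `n` are sieved by the primes up to `z n`; this leaves the density `1 / log n`. -/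
structure SievingLimit (z : ℕ → ℕ) : Prop where
  mono : Monotone z
  lim : Tendsto (fun n : ℕ => V (z n) * Real.log n) atTop (𝓝 1)

/-- The sieving limit of Banks, Ford and Tao: the largest `z` with `V z ≥ 1 / log n`. -/
noncomputable def banksFordTao (n : ℕ) : ℕ := sSup {z : ℕ | 1 / Real.log n ≤ V z}

/-- The random sieve: the integers `n` which are not congruent to `a p` modulo `p`, for all primes
`p ≤ z n`. -/
def sieved (z : ℕ → ℕ) (a : ℕ → ℕ) : Set ℕ :=
  {n | ∀ p : ℕ, p.Prime → p ≤ z n → ¬ n ≡ a p [MOD p]}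

/-- The classes `b` modulo `d` (`d` a prime), other than the class of `a d`, which contain no
element of `R` up to `Y`. -/
def lateClasses (R : Set ℕ) (a : ℕ → ℕ) (d : ℕ) (Y : ℝ) : Set ℕ :=
  {b | b < d ∧ ¬ b ≡ a d [MOD d] ∧ ∀ n ∈ R, n ≡ b [MOD d] → Y < n}

/-- The number of the integers `n`, `m < n ≤ m + U`, without prime factors `p ≤ ζ`. -/
def sifted (m U ζ : ℕ) : ℕ :=
  ((Ioc m (m + U)).filter (fun n => ∀ p ≤ ζ, p.Prime → ¬ p ∣ n)).card

/-- `min_m #{m < n ≤ m + U : n has no prime factor ≤ ζ}`, divided by `U ∏_{p ≤ ζ} (1 - 1 / p)`. -/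
noncomputable def minSifted (U ζ : ℕ) : ℝ := ((⨅ m, sifted m U ζ : ℕ) : ℝ) / (U * V ζ)

/-- The law for the modulus `d`: for `log d (loglog d)³ ≤ U ≤ (log d)² / δ` there are
`d exp (- (m + O(δ)) U / log d)` classes modulo `d` without elements of `R` up to `d U`,
`m = minSifted U (U / log d)`; the lower bound if the expected number is at least `d ^ δ`. -/
def Law (δ : ℝ) (R : Set ℕ) (a : ℕ → ℕ) (d : ℕ) : Prop := ∀ U : ℕ,
  Real.log d * Real.log (Real.log d) ^ 3 ≤ U → U ≤ 1 / δ * Real.log d ^ 2 →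
  ((lateClasses R a d (d * U)).ncard : ℝ) ≤
    d * Real.exp (-((minSifted U ⌊U / Real.log d⌋₊ - δ) * (U / Real.log d))) ∧
  ((minSifted U ⌊U / Real.log d⌋₊ + δ) * U ≤ (1 - δ) * Real.log d ^ 2 →
    d * Real.exp (-((minSifted U ⌊U / Real.log d⌋₊ + δ) * (U / Real.log d))) ≤
      (lateClasses R a d (d * U)).ncard)

lemma sifted_eq (m U ζ : ℕ) :
    sifted m U ζ = Pool.Agent.H532.RM.T1 (fun _ => 0) ζ m U := by
  unfold sifted Pool.Agent.H532.RM.T1
  congr 1
  ext n
  rw [Pool.Agent.H532.RM.mem_T1, mem_filter, mem_Ioc]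
  constructor
  · rintro ⟨h1, h2⟩
    refine ⟨h1, fun p hp h3 => ?_⟩
    rw [Nat.zero_mod] at h3
    have hp' := Pool.Agent.H532.RM.mem_primesLe.1 hp
    exact h2 p hp'.1 hp'.2 (Nat.dvd_of_mod_eq_zero h3)
  · rintro ⟨h1, h2⟩
    refine ⟨h1, fun p hp hpp h3 => ?_⟩
    have := h2 p (Pool.Agent.H532.RM.mem_primesLe.2 ⟨hp, hpp⟩)
    rw [Nat.zero_mod] at this
    exact this (Nat.mod_eq_zero_of_dvd h3)

lemma minSifted_eq (U ζ : ℕ) : minSifted U ζ = Pool.Agent.H532.RM.rm U ζ := by
  unfold minSifted Pool.Agent.H532.RM.rm Pool.Agent.H532.RM.smin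
  simp only [sifted_eq]
  rfl

lemma late_eq (z a : ℕ → ℕ) (d : ℕ) (Y : ℝ) :
    lateClasses (sieved z a) a d Y = ↑(Pool.Agent.H532.WG.LS z a d Y) := by
  ext b
  simp only [lateClasses, Pool.Agent.H532.WG.LS, Finset.coe_filter, mem_range]
  exact Iff.rfl

/-- **Wagstaff's asymptotic fails in the random sieve model.** -/
theorem result :
    -- the model exists
    (∃ μ : Measure (ℕ → ℕ), IsProbabilityMeasure μ ∧ RandomClasses μ (fun p ω => ω p)) ∧
    SievingLimit banksFordTao ∧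
    -- Wagstaff's asymptotic fails for almost all primes `d`
    (∃ c : ℝ, 0 < c ∧ ∀ (Ω : Type) [MeasurableSpace Ω] (μ : Measure Ω)
      [IsProbabilityMeasure μ] (A : ℕ → Ω → ℕ), RandomClasses μ A → ∀ z : ℕ → ℕ,
      SievingLimit z → ∀ᵐ ω ∂μ, ∀ᶠ x : ℕ in atTop,
        ({d : ℕ | d.Prime ∧ x < d ∧ d ≤ 2 * x ∧
          ¬ (lateClasses (sieved z (fun p => A p ω)) (fun p => A p ω) d
            ((1 + c) * d.totient * Real.log d ^ 2)).Nonempty}.ncard : ℝ) ≤
          x / Real.log x ^ 12) ∧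
    -- the number of the classes without small elements
    (∀ δ : ℝ, 0 < δ → ∀ (Ω : Type) [MeasurableSpace Ω] (μ : Measure Ω)
      [IsProbabilityMeasure μ] (A : ℕ → Ω → ℕ), RandomClasses μ A → ∀ z : ℕ → ℕ,
      SievingLimit z → ∀ᵐ ω ∂μ, ∀ᶠ x : ℕ in atTop,
        ({d : ℕ | d.Prime ∧ x < d ∧ d ≤ 2 * x ∧
          ¬ Law δ (sieved z (fun p => A p ω)) (fun p => A p ω) d}.ncard : ℝ) ≤
          x / Real.log x ^ 12) := by
  have hR : ∀ {Ω : Type} [MeasurableSpace Ω] {μ : Measure Ω} {A : ℕ → Ω → ℕ},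
      RandomClasses μ A → Pool.Agent.H532.RM.RandomClasses μ A := fun h =>
    ⟨h.meas, h.indep, h.unif⟩
  have hcount : ∀ (x : ℕ) (P : ℕ → Prop) (B : ℝ), (∀ t : Finset ℕ,
      (∀ d ∈ t, d.Prime ∧ x < d ∧ d ≤ 2 * x ∧ P d) → (t.card : ℝ) ≤ B) →
      ({d : ℕ | d.Prime ∧ x < d ∧ d ≤ 2 * x ∧ P d}.ncard : ℝ) ≤ B := by
    intro x P B h
    have hfin : {d : ℕ | d.Prime ∧ x < d ∧ d ≤ 2 * x ∧ P d}.Finite :=
      (Set.finite_Iic (2 * x)).subset fun d hd => hd.2.2.1
    rw [Set.ncard_eq_toFinset_card _ hfin]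
    refine h _ fun d hd => ?_
    rw [Set.Finite.mem_toFinset] at hd
    exact hd
  refine ⟨?_, ⟨Pool.Agent.H532.RM.zBFT_mono, Pool.Agent.H532.RM.zBFT_lim⟩, ?_, ?_⟩
  · obtain ⟨μ, h1, h2⟩ := Pool.Agent.H532.RM.exists_randomClasses
    exact ⟨μ, h1, ⟨h2.meas, h2.indep, h2.unif⟩⟩
  · obtain ⟨c, hc, hB⟩ := Pool.Agent.H532.WG.final_B
    refine ⟨c, hc, ?_⟩
    intro Ω _ μ _ A hA z hz
    filter_upwards [hB μ A (hR hA) z hz.mono hz.lim] with ω hω
    filter_upwards [hω] with x hx
    refine hcount x _ _ fun t ht => hx t fun d hd => ?_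
    obtain ⟨h1, h2, h3, h4⟩ := ht d hd
    refine ⟨h1, h2, h3, fun hE => h4 ?_⟩
    obtain ⟨b, hb1, hb2, hb3⟩ := hE
    refine ⟨b, hb1, hb2, fun n hn hnb => lt_of_le_of_lt ?_ (hb3 n hn hnb)⟩
    have h5 : (d.totient : ℝ) ≤ d := by exact_mod_cast Nat.totient_le d
    gcongr
  · intro δ hδ Ω _ μ _ A hA z hz
    obtain ⟨δ', hδ'⟩ : ∃ δ' : ℝ, δ' = min δ 1 := ⟨_, rfl⟩
    have hδ0 : 0 < δ' := by rw [hδ']; exact lt_min hδ one_pos
    have hδ1 : δ' ≤ 1 := by rw [hδ']; exact min_le_right _ _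
    have hδδ : δ' ≤ δ := by rw [hδ']; exact min_le_left _ _
    filter_upwards [Pool.Agent.H532.WG.final_C δ' hδ0 hδ1 μ A (hR hA) z hz.mono hz.lim] with
      ω hω
    filter_upwards [hω] with x hx
    refine hcount x _ _ fun t ht => hx t fun d hd => ?_
    obtain ⟨h1, h2, h3, h4⟩ := ht d hd
    refine ⟨h1, h2, h3, fun hE => h4 ?_⟩
    intro U hU1 hU2
    have hL2 : 0 ≤ Real.log (d : ℝ) ^ 2 := sq_nonneg _
    have hUL : 0 ≤ (U : ℝ) / Real.log d := by
      have : 0 ≤ Real.log (d : ℝ) := Real.log_natCast_nonneg d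
      positivity
    obtain ⟨k1, k2⟩ := hE U hU1 (hU2.trans (by gcongr))
    rw [late_eq, Set.ncard_coe_finset, minSifted_eq]
    constructor
    · refine k1.trans ?_
      have h5 : (Pool.Agent.H532.RM.rm U ⌊(U : ℝ) / Real.log d⌋₊ - δ) * (U / Real.log d) ≤
          (Pool.Agent.H532.RM.rm U ⌊(U : ℝ) / Real.log d⌋₊ - δ') * (U / Real.log d) := by
        gcongr
      exact mul_le_mul_of_nonneg_left (Real.exp_le_exp.2 (neg_le_neg h5)) (Nat.cast_nonneg _)
    · intro hc
      refine le_trans ?_ (k2 ?_)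
      · have h5 : (Pool.Agent.H532.RM.rm U ⌊(U : ℝ) / Real.log d⌋₊ + δ') * (U / Real.log d) ≤
            (Pool.Agent.H532.RM.rm U ⌊(U : ℝ) / Real.log d⌋₊ + δ) * (U / Real.log d) := by
          gcongr
        exact mul_le_mul_of_nonneg_left (Real.exp_le_exp.2 (neg_le_neg h5)) (Nat.cast_nonneg _)
      · have h6 : (Pool.Agent.H532.RM.rm U ⌊(U : ℝ) / Real.log d⌋₊ + δ') * U ≤
            (Pool.Agent.H532.RM.rm U ⌊(U : ℝ) / Real.log d⌋₊ + δ) * U := by gcongr
        refine h6.trans (hc.trans ?_)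
        gcongr

end Pool.Agent.Results.MP_458f0b_nt.WagstaffFailsInTheModel
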